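import Mathlib
import Pool.Agent.H36.NX.Index

/-!
# IdxD : the index hypothesis over every field of characteristic 3 with a discrete valuation

If `k` has characteristic 3 and `v` is a discrete valuation of `k` with `v t` the largest value
smaller than `1` then every point of the cubic in a finite extension of `k` has degree divisible
by 3.
-/

set_option autoImplicit false

namespace H36.NX

open WithZero Module IsDedekindDomain

/-- the index hypothesis for the fraction field of a Dedekind domain -/
theorem indexThree_of_dedekind {A k : Type} [CommRing A] [IsDedekindDomain A] [Field k]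
    [Algebra A k] [IsFractionRing A k] [CharP k 3] (p : HeightOneSpectrum A) (t : A)
    (ht : p.intValuation t = exp (-1 : ℤ)) : IndexThree k (algebraMap A k t) := by
  intro L _ _ _ x y z hne hrel
  by_contra h3
  have hsep : Algebra.IsSeparable k L := index_separable h3
  let : Algebra A L := ((algebraMap k L).comp (algebraMap A k)).toAlgebra
  have : IsScalarTower A k L := IsScalarTower.of_algebraMap_eq fun _ => rfl
  let S := integralClosure A L
  have : IsFractionRing S L :=
    integralClosure.isFractionRing_of_finite_extension k L
  have : Module.Finite A S := IsIntegralClosure.finite A k L S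
  have : IsDedekindDomain S := integralClosure.isDedekindDomain A k L
  have hinj : Function.Injective (algebraMap A S) := by
    have h1 : Function.Injective (algebraMap A L) :=
      (algebraMap k L).injective.comp (IsFractionRing.injective A k)
    exact Function.Injective.of_comp (f := algebraMap S L) h1
  have htf : Module.IsTorsionFree A S := Module.isTorsionFree_iff_algebraMap_injective.2 hinj
  have hp0 : p.asIdeal ≠ ⊥ := p.ne_bot
  have hpmax : p.asIdeal.IsMaximal := p.isMaximal
  have hsum := Ideal.sum_ramification_inertia S k L hp0
  obtain ⟨P, hP, hPe⟩ : ∃ P ∈ IsDedekindDomain.primesOverFinset p.asIdeal S,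
      ¬ 3 ∣ Ideal.ramificationIdx' p.asIdeal P := by
    by_contra hcon
    push Not at hcon
    apply h3
    rw [← hsum]
    exact Finset.dvd_sum fun P hP => Dvd.dvd.mul_right (hcon P hP) _
  obtain ⟨hPp, hPl⟩ := (IsDedekindDomain.mem_primesOverFinset_iff hp0 _).1 hP
  have hPbot : P ≠ ⊥ := by
    rintro rfl
    apply hp0
    have h1 := hPl.over
    rw [h1]
    refine (Ideal.comap_bot_of_injective _ ?_)
    exact hinj
  let w : HeightOneSpectrum S := ⟨P, hPp, hPbot⟩
  have hw : w.asIdeal.LiesOver p.asIdeal := hPl
  have hvt : w.valuation L (algebraMap k L (algebraMap A k t))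
      = exp (-((Ideal.ramificationIdx' p.asIdeal P : ℕ) : ℤ)) := by
    rw [← HeightOneSpectrum.valuation_liesOver (A := A) (K := k) L p w,
      HeightOneSpectrum.valuation_of_algebraMap, ht, ← exp_nsmul]
    congr 1
    simp [w]
  have hn0 : (0 : ℤ) < (Ideal.ramificationIdx' p.asIdeal P : ℕ) := by
    rcases Nat.eq_zero_or_pos (Ideal.ramificationIdx' p.asIdeal P) with h | h
    · exact absurd (h ▸ dvd_zero 3) hPe
    · exact_mod_cast h
  exact index_val_contra (w.valuation L) (algebraMap k L (algebraMap A k t)) _ hvt
    (by intro h; apply hPe; exact_mod_cast h) hn0 x y z hne (by simpa only [map_pow] using hrel)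

/-- every field of characteristic 3 which is the fraction field of a Dedekind domain that is not a
field (for example of a discrete valuation ring) carries a cubic of index 3 -/
theorem exists_indexThree (A k : Type) [CommRing A] [IsDedekindDomain A] (hA : ¬ IsField A)
    [Field k] [Algebra A k] [IsFractionRing A k] [CharP k 3] :
    ∃ t : k, t ≠ 0 ∧ IndexThree k t := by
  obtain ⟨m, hm⟩ := Ideal.exists_maximal A
  have hbot : m ≠ ⊥ := Ring.ne_bot_of_isMaximal_of_not_isField hm hA
  let p : HeightOneSpectrum A := ⟨m, hm.isPrime, hbot⟩
  obtain ⟨t, ht⟩ := p.intValuation_exists_uniformizer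
  refine ⟨algebraMap A k t, ?_, indexThree_of_dedekind p t ht⟩
  intro h
  have h0 : t = 0 := (IsFractionRing.injective A k) (h.trans (map_zero _).symm)
  rw [h0, map_zero] at ht
  exact exp_ne_zero ht.symm

end H36.NX
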